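import Pool.Agent.W950.CIS3

/-!
# Recognition of CIS graphs is coNP-complete

The decision problem CIS RECOGNITION has as input a finite simple graph, given by an adjacency
matrix `M : List (List Bool)` (`matGraph M` is the graph), and asks whether every maximal clique
meets every maximal stable set.

Reduction from the complement of 3SAT.  For a formula with variables `x_1, ..., x_n` and clauses
`c_1, ..., c_m` such that no literal is in all clauses, take as vertices the literals, the clauses,
and for each clause `c_k` and each literal `y` of a variable not in `c_k` a vertex `z(y, k)`.
Opposite literals are adjacent; a literal is adjacent to the clauses `c_k` containing it, to all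
`z(y, k)` for these `k`, and to its own copies `z(y, k)`; vertices belonging to different clauses
are adjacent; and `z(y, k)` is adjacent to `z(not y, k)`.  Every maximal stable set either is a
satisfying assignment, or consists of a clause vertex `c_k`, of the literals true under an
assignment falsifying `c_k`, and of the `z(y, k)` with `y` false under it; a maximal clique meets
all sets of the second kind, and the maximal clique of all clause vertices meets no set of the first
kind.
-/

set_option autoImplicit false

namespace Pool.Agent.Results.MP_bb030f_lc.CISCoNPComplete

open Pool.Agent.NPC Pool.Agent.H622R2 Pool.Agent.W950

/-- **CIS RECOGNITION is coNP-complete** under polynomial-time many-one reductions. -/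
theorem result : InCoNPP (fun M : List (List Bool) => IsCIS (matGraph M)) ∧
    CoNPHardP (fun M : List (List Bool) => IsCIS (matGraph M)) :=
  ⟨inCoNP_cis, hardI_not_cis.toCoNPHardP⟩

end Pool.Agent.Results.MP_bb030f_lc.CISCoNPComplete
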